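import Pool.Agent.V11212.Tor.Main

/-!
# Rationally acyclic complexes with prescribed torsion and few vertices
-/

set_option autoImplicit false

namespace Pool.Agent.Results.MP_5453bf_gt.PrescribedTorsion

open Pool.Agent.V11212.Tor

/-- **Main result.** For every `d ≥ 2` there is a constant `C` such that every nontrivial finite
abelian group `G` is isomorphic to `H_{d-1}(K)` for a `d`-dimensional simplicial complex `K` which
is rationally acyclic and has at most `C (log |G|)^(1/d)` vertices. -/
theorem result (d : ℕ) (hd : 2 ≤ d) : ∃ C : ℝ, 0 < C ∧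
    ∀ (G : Type) [AddCommGroup G] [Finite G] [Nontrivial G],
      ∃ (V : Type) (_ : Fintype V) (_ : LinearOrder V) (K : Set (Finset V)),
        IsComplex K ∧ HasDim K d ∧ RatAcyclic K ∧ HomologyIs K (d - 1) G ∧
          (Fintype.card V : ℝ) ≤ C * Real.log (Nat.card G) ^ ((1 : ℝ) / d) :=
  main d hd

end Pool.Agent.Results.MP_5453bf_gt.PrescribedTorsion
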